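import Pool.Agent.W_448rb_h44.RbA

/-!
MP_448cb3_co, G2, case B, block (K), part P2: the right block, main theorem; the two sides of a window.
helper44.
-/

namespace Pool.Agent.GaussPoset.Win.Kd

set_option linter.unusedSectionVars false

open Finset
open Pool.Agent.GaussPoset.Win.I2 (kd gu)

universe u

section abstractBlock

variable {P : Type u} [DecidableEq P]
variable {c c' : P → Finset P} {t : P → ℤ} {e : P → ℕ} {R : Finset P} {th y y2 p s q : P}

/-- the second outcome: two elements over the same two near elements -/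
def Lab2 (c : P → Finset P) (R : Finset P) (e : P → ℕ) (th y y2 s : P) : Prop :=
  e y = 1 ∧ e y2 = 1 ∧ e th = 1 ∧ e s = 0 ∧ (∑ z ∈ R, e z = 5) ∧
    ∃ th2 ∈ R, th2 ≠ th ∧ c th2 = {y, y2} ∧ e th2 = 2 ∧
      ∀ z ∈ R, z ≠ th → z ≠ th2 → z ≠ y → z ≠ y2 → e z = 0

lemma Lab2.symm (h : Lab2 c R e th y2 y s) : Lab2 c R e th y y2 s := by
  obtain ⟨h1, h2, h3, h4, h5, d, h6, h7, h8, h9, h10⟩ := h
  exact ⟨h2, h1, h3, h4, h5, d, h6, h7, by rw [h8, pair_comm], h9,
    fun z hz a b c' d' => h10 z hz a b d' c'⟩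

namespace RB

variable (B : RB c c' t e R th y y2 p s q)

include B

/-- the near element `y` is killed, all labels small -/
lemma lab2 (hT : e th = 1) (hS : e s = 0) (hk : kd c' e y) : Lab2 c R e th y y2 s := by
  have h1 := B.e2
  have h2 := B.e3
  have hp := B.p0
  have hq := B.q0
  obtain ⟨d, hd, hlt⟩ := hk
  have hne : d ≠ th := by
    rintro rfl
    omega
  have hdm : d ∈ c' y ∪ c' y2 := mem_union_left _ hd
  obtain ⟨r1, r2, r3, r4⟩ := B.dR d hdm
  have t1 := B.td hdm
  have t2 := B.ty
  have t3 := B.ty2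
  have t4 := B.tth
  have n2 : d ≠ y := B.ne_of (by omega)
  have n3 : d ≠ y2 := B.ne_of (by omega)
  have hs := B.S4 r1 hne n2 n3
  have ed : e d = 2 := by omega
  have ey : e y = 1 := by omega
  have ey2 : e y2 = 1 := by omega
  have hz0 : ∀ z ∈ R, z ≠ th → z ≠ d → z ≠ y → z ≠ y2 → e z = 0 := by
    intro z hz a1 a2 a3 a4
    have := B.S5 r1 hne n2 n3 hz a1 a3 a4 (Ne.symm a2)
    omega
  -- the killer is a sink
  have sd : snk c c' t e d := by
    refine Or.inr ⟨by omega, ?_, ?_⟩
    · rintro ⟨z, hz, hlt'⟩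
      have h3 := B.lv z d ((B.dual z d).2 hz)
      have := hz0 z (r3 hz) (B.ne_of (by omega)) (B.ne_of (by omega)) (B.ne_of (by omega))
        (B.ne_of (by omega))
      omega
    · rintro ⟨z, hz, hle⟩
      have h3 := B.lv d z hz
      by_cases a1 : z = y
      · subst a1
        omega
      by_cases a2 : z = y2
      · subst a2
        omega
      have := hz0 z (r2 hz) (B.ne_of (by omega)) (B.ne_of (by omega)) a1 a2
      omega
  -- the other near element is killed
  have hk2 : kd c' e y2 := by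
    by_contra hk2
    have s2 : snk c c' t e y2 := by
      refine Or.inr ⟨by omega, hk2, ?_⟩
      rintro ⟨a, ha, hle⟩
      rw [B.cy2, mem_insert, mem_singleton] at ha
      rcases ha with rfl | rfl <;> omega
    exact n3 (B.one d r1 y2 B.my2 sd s2)
  obtain ⟨d', hd', hlt'⟩ := hk2
  have hdm' : d' ∈ c' y ∪ c' y2 := mem_union_right _ hd'
  have t1' := B.td hdm'
  have hdd : d' = d := by
    by_contra a2
    have a1 : d' ≠ th := by
      rintro rfl
      omega
    have := hz0 d' (B.dR d' hdm').1 a1 a2 (B.ne_of (by omega)) (B.ne_of (by omega))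
    omega
  subst hdd
  have m1 : y ∈ c d' := (B.dual d' y).2 hd
  have m2 : y2 ∈ c d' := (B.dual d' y2).2 hd'
  have hcd : c d' = {y, y2} := by
    symm
    refine eq_of_subset_of_card_le ?_ ?_
    · intro x hx
      rw [mem_insert, mem_singleton] at hx
      rcases hx with rfl | rfl
      · exact m1
      · exact m2
    · rw [card_pair B.hy]
      exact r4
  refine ⟨ey, ey2, hT, hS, ?_, d', r1, hne, hcd, ed, hz0⟩
  have h4 : ∑ z ∈ ({d', th, y, y2} : Finset P), e z ≤ ∑ z ∈ R, e z := by
    refine sum_le_sum_of_subset ?_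
    intro x hx
    simp only [mem_insert, mem_singleton] at hx
    rcases hx with rfl | rfl | rfl | rfl
    · exact r1
    · exact B.mth
    · exact B.my
    · exact B.my2
  rw [sum_insert (by simp [hne, n2, n3]), sum_insert (by simp [B.nty, B.nty2]),
    sum_insert (by simp [B.hy]), sum_singleton] at h4
  have := B.sum
  omega

/-- THE RIGHT BLOCK -/
theorem main : e p = 0 ∧ e q = 0 ∧ (∀ u ∈ c s, e u = 0) ∧
    ((Lab th y y2 s e ∧ (∀ z ∈ R, z ≠ th → z ≠ y → z ≠ y2 → z ≠ s → e z ≤ 1) ∧
      4 ≤ ∑ z ∈ R, e z) ∨ Lab2 c R e th y y2 s) := by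
  refine ⟨B.p0, B.q0, fun u hu => B.u0 hu, ?_⟩
  have h1 := B.e1
  have h2 := B.e2
  have h3 := B.e3
  have hp := B.p0
  have hq := B.q0
  have hss := B.S4s B.ms (by rw [B.ts])
  have h4 : ∀ z ∈ R, z ≠ th → z ≠ y → z ≠ y2 → z ≠ s → e th + e y + e y2 + e s + e z ≤ 5 := by
    intro z hz a1 a2 a3 a4
    obtain ⟨n1, n2, n3⟩ := B.nsite (z := s) (by rw [B.ts])
    exact B.S5 B.ms n1 n2 n3 hz a1 a2 a3 (Ne.symm a4)
  have h5 : e th + e y + e y2 + e s ≤ ∑ z ∈ R, e z := by
    obtain ⟨n1, n2, n3⟩ := B.nsite (z := s) (by rw [B.ts])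
    have h4 : ∑ z ∈ ({s, th, y, y2} : Finset P), e z ≤ ∑ z ∈ R, e z := by
      refine sum_le_sum_of_subset ?_
      intro x hx
      simp only [mem_insert, mem_singleton] at hx
      rcases hx with rfl | rfl | rfl | rfl
      · exact B.ms
      · exact B.mth
      · exact B.my
      · exact B.my2
    rw [sum_insert (by simp [n1, n2, n3]), sum_insert (by simp [B.nty, B.nty2]),
      sum_insert (by simp [B.hy]), sum_singleton] at h4
    omega
  -- the two consequences of admissibility
  have a1 : e y < e th → e s < e y := by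
    intro hlt
    by_contra hle
    exact B.adm y (Or.inl rfl) ⟨⟨th, B.thy, hlt⟩, s, by rw [B.cy]; simp, by omega⟩
  have a2 : e y2 < e th → e s < e y2 := by
    intro hlt
    by_contra hle
    exact B.adm y2 (Or.inr rfl) ⟨⟨th, B.thy2, hlt⟩, s, by rw [B.cy2]; simp, by omega⟩
  rcases Nat.lt_or_ge (e th) 2 with hT | hT
  · have hT1 : e th = 1 := by omega
    rcases Nat.eq_zero_or_pos (e s) with hS | hS
    · -- two unguarded near elements
      right
      by_cases k1 : kd c' e y
      · exact B.lab2 hT1 hS k1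
      · have s1 : snk c c' t e y := by
          refine Or.inr ⟨by rw [B.ty]; norm_num, k1, ?_⟩
          rintro ⟨a, ha, hle⟩
          rw [B.cy, mem_insert, mem_singleton] at ha
          rcases ha with rfl | rfl <;> omega
        have k2 : kd c' e y2 := by
          by_contra k2
          have s2 : snk c c' t e y2 := by
            refine Or.inr ⟨by rw [B.ty2]; norm_num, k2, ?_⟩
            rintro ⟨a, ha, hle⟩
            rw [B.cy2, mem_insert, mem_singleton] at ha
            rcases ha with rfl | rfl <;> omega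
          exact B.hy (B.one y B.my y2 B.my2 s1 s2)
        exact (B.symm.lab2 hT1 hS k2).symm
    · left
      refine ⟨?_, ?_, by omega⟩
      · unfold Lab
        omega
      · intro z hz b1 b2 b3 b4
        have := h4 z hz b1 b2 b3 b4
        omega
  · left
    have hcase : (e y = 1 ∧ e y2 = 1 ∧ e s = 0) ∨
        (((e y = 1 ∧ e y2 = 2) ∨ (e y = 2 ∧ e y2 = 1)) ∧ e s = 0 ∧ e th = 2) := by
      rcases Nat.lt_or_ge (e y) 2 with b1 | b1
      · rcases Nat.lt_or_ge (e y2) 2 with b2 | b2
        · have := a1 (by omega)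
          left
          omega
        · right
          omega
      · right
        omega
    refine ⟨?_, ?_, by omega⟩
    · unfold Lab
      omega
    · intro z hz b1 b2 b3 b4
      have := h4 z hz b1 b2 b3 b4
      omega

end RB

end abstractBlock

section sides

variable {P : Type u} [Fintype P] [PartialOrder P] [DecidableEq P] {r i : ℕ} {e : P → ℕ}

/-- a sink of the lower side -/
lemma Snk_of_snkL {z : P} (h : snk (uc : P → Finset P) dc (fun z => (lev z : ℤ) - i) e z) :
    Snk i e z := by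
  rcases h with ⟨h1, h2, h3⟩ | ⟨h1, h2, h3⟩
  · refine Or.inl ⟨by simp only at h1; omega, ?_, ?_⟩
    · rw [FDm]
      exact h2
    · rw [FUm]
      exact h3
  · refine Or.inr (Or.inl ⟨by simp only at h1; omega, ?_, ?_⟩)
    · rw [FDm]
      exact h2
    · rw [GUm]
      exact h3

/-- a sink of the upper side -/
lemma Snk_of_snkU {z : P} (h : snk (dc : P → Finset P) uc (fun z => (i : ℤ) - lev z) e z) :
    Snk i e z := by
  rcases h with ⟨h1, h2, h3⟩ | ⟨h1, h2, h3⟩
  · refine Or.inl ⟨by simp only at h1; omega, ?_, ?_⟩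
    · rw [FDm]
      exact h3
    · rw [FUm]
      exact h2
  · refine Or.inr (Or.inr ⟨by simp only at h1; omega, ?_, ?_⟩)
    · rw [FUm]
      exact h2
    · rw [GDm]
      exact h3

lemma dual_low (z x : P) : x ∈ (uc z : Finset P) ↔ z ∈ dc x := by
  rw [mem_uc, mem_dc]

lemma dual_upp (z x : P) : x ∈ (dc z : Finset P) ↔ z ∈ uc x := by
  rw [mem_uc, mem_dc]

lemma lv_low (H : Gr P r) (i : ℕ) (z x : P) (h : x ∈ uc z) :
    ((lev x : ℤ) - i) + 1 = (lev z : ℤ) - i := by
  have := lev_uc H h
  omega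

lemma lv_upp (H : Gr P r) (i : ℕ) (z x : P) (h : x ∈ dc z) :
    ((i : ℤ) - lev x) + 1 = (i : ℤ) - lev z := by
  have := lev_dc H h
  omega

end sides

end Pool.Agent.GaussPoset.Win.Kd
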