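import Pool.Agent.W_448rb_h44.RbB
import Pool.Agent.W_448win_h16.NormA

/-!
MP_448cb3_co, G2, case B, block (K), part P2: the value of the last configuration of energy eight in a
part with six sites. helper44.
-/

namespace Pool.Agent.GaussPoset.Win.Kd

set_option linter.unusedSectionVars false

open Finset

universe u

variable {P : Type u} [Fintype P] [PartialOrder P] [DecidableEq P] {r i : ℕ} {e : P → ℕ}
variable {C : Finset P} {y0 u1 x1 w3 w4 E1 E2 x0 x2 x3 x4 x5 : P}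

/-- the configuration: the unit `y0`, `u1`, `x1` on the left and `w3`, `w4`, `E1`, `E2` on the right -/
structure VC (i : ℕ) (y0 u1 x1 w3 w4 E1 E2 x0 x2 x3 x4 x5 : P) (e : P → ℕ) : Prop where
  l1 : lev x1 = i
  l4 : lev x4 = i
  lu : lev u1 + 1 = i
  uy : uc y0 = {x0, x1}
  du : dc u1 = {x1, x2}
  uw3 : uc w3 = {x3, x4}
  uw4 : uc w4 = {x4, x5}
  uE1 : uc E1 = {w3, w4}
  uE2 : uc E2 = {w3, w4}
  nd : [x0, x1, x2, x3, x4, x5].Nodup
  ww : w3 ≠ w4
  ey : e y0 = 1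
  eu : e u1 = 1
  ex : e x1 = 1
  e3 : e w3 = 1
  e4 : e w4 = 1
  eE1 : e E1 = 1
  eE2 : e E2 = 2
  out : ∀ z, e z ≠ 0 → z = y0 ∨ z = u1 ∨ z = x1 ∨ z = w3 ∨ z = w4 ∨ z = E1 ∨ z = E2

namespace VC

variable (V : VC i y0 u1 x1 w3 w4 E1 E2 x0 x2 x3 x4 x5 e) (H : Gr P r)

include V

lemma ne : x0 ≠ x1 ∧ x0 ≠ x2 ∧ x0 ≠ x3 ∧ x0 ≠ x4 ∧ x0 ≠ x5 ∧ x1 ≠ x2 ∧ x1 ≠ x3 ∧ x1 ≠ x4 ∧ x1 ≠ x5 ∧
    x2 ≠ x3 ∧ x2 ≠ x4 ∧ x2 ≠ x5 ∧ x3 ≠ x4 ∧ x3 ≠ x5 ∧ x4 ≠ x5 := by
  have h := V.nd
  simp only [List.nodup_cons, List.mem_cons, List.not_mem_nil, or_false, not_or,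
    not_false_eq_true, List.nodup_nil, and_true] at h
  tauto

include H

lemma lev_all : lev y0 = i + 1 ∧ lev w3 = i + 1 ∧ lev w4 = i + 1 ∧ lev E1 = i + 2 ∧
    lev E2 = i + 2 ∧ lev x0 = i ∧ lev x2 = i ∧ lev x3 = i ∧ lev x5 = i := by
  have h1 := V.l1
  have h2 := V.l4
  have h3 := V.lu
  have a1 := lev_uc H (show x1 ∈ uc y0 by rw [V.uy]; simp)
  have a2 := lev_uc H (show x0 ∈ uc y0 by rw [V.uy]; simp)
  have a3 := lev_dc H (show x2 ∈ dc u1 by rw [V.du]; simp)
  have a4 := lev_uc H (show x4 ∈ uc w3 by rw [V.uw3]; simp)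
  have a5 := lev_uc H (show x3 ∈ uc w3 by rw [V.uw3]; simp)
  have a6 := lev_uc H (show x4 ∈ uc w4 by rw [V.uw4]; simp)
  have a7 := lev_uc H (show x5 ∈ uc w4 by rw [V.uw4]; simp)
  have a8 := lev_uc H (show w3 ∈ uc E1 by rw [V.uE1]; simp)
  have a9 := lev_uc H (show w3 ∈ uc E2 by rw [V.uE2]; simp)
  refine ⟨?_, ?_, ?_, ?_, ?_, ?_, ?_, ?_, ?_⟩ <;> omega

/-- the label of a site other than `x1` -/
lemma e_site {z : P} (hz : lev z = i) (h : z ≠ x1) : e z = 0 := by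
  by_contra hne
  obtain ⟨b1, b2, b3, b4, b5, -⟩ := V.lev_all H
  have h3 := V.lu
  rcases V.out z hne with rfl | rfl | rfl | rfl | rfl | rfl | rfl
  · omega
  · omega
  · exact h rfl
  all_goals omega

lemma FD_iff {z : P} (hz : i ≤ lev z) :
    FD e z ↔ z = x0 ∨ z = x3 ∨ z = x4 ∨ z = x5 ∨ z = w3 ∨ z = w4 := by
  obtain ⟨b1, b2, b3, b4, b5, b6, b7, b8, b9⟩ := V.lev_all H
  have h3 := V.lu
  have h1 := V.l1
  have h4 := V.l4
  obtain ⟨n1, n2, n3, n4, n5, n6, n7, n8, n9, n10, n11, n12, n13, n14, n15⟩ := V.ne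
  rw [FDm]
  constructor
  · rintro ⟨z', hz', hlt⟩
    have hm : z ∈ uc z' := mem_uc.2 (mem_dc.1 hz')
    have hl := lev_uc H hm
    have hne : e z' ≠ 0 := by omega
    rcases V.out z' hne with rfl | rfl | rfl | rfl | rfl | rfl | rfl
    · rw [V.uy, mem_insert, mem_singleton] at hm
      rcases hm with rfl | rfl
      · exact Or.inl rfl
      · rw [V.ex, V.ey] at hlt
        omega
    · omega
    · omega
    · rw [V.uw3, mem_insert, mem_singleton] at hm
      tauto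
    · rw [V.uw4, mem_insert, mem_singleton] at hm
      tauto
    · rw [V.uE1, mem_insert, mem_singleton] at hm
      tauto
    · rw [V.uE2, mem_insert, mem_singleton] at hm
      tauto
  · rintro (rfl | rfl | rfl | rfl | rfl | rfl)
    · refine ⟨y0, mem_dc.2 (mem_uc.1 (by rw [V.uy]; simp)), ?_⟩
      rw [V.e_site H b6 n1, V.ey]
      norm_num
    · refine ⟨w3, mem_dc.2 (mem_uc.1 (by rw [V.uw3]; simp)), ?_⟩
      rw [V.e_site H b8 (Ne.symm n7), V.e3]
      norm_num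
    · refine ⟨w3, mem_dc.2 (mem_uc.1 (by rw [V.uw3]; simp)), ?_⟩
      rw [V.e_site H h4 (Ne.symm n8), V.e3]
      norm_num
    · refine ⟨w4, mem_dc.2 (mem_uc.1 (by rw [V.uw4]; simp)), ?_⟩
      rw [V.e_site H b9 (Ne.symm n9), V.e4]
      norm_num
    · refine ⟨E2, mem_dc.2 (mem_uc.1 (by rw [V.uE2]; simp)), ?_⟩
      rw [V.e3, V.eE2]
      norm_num
    · refine ⟨E2, mem_dc.2 (mem_uc.1 (by rw [V.uE2]; simp)), ?_⟩
      rw [V.e4, V.eE2]
      norm_num

lemma FU_iff {z : P} (hz : lev z ≤ i) : FU e z ↔ z = x2 := by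
  obtain ⟨b1, b2, b3, b4, b5, b6, b7, b8, b9⟩ := V.lev_all H
  have h3 := V.lu
  have h1 := V.l1
  obtain ⟨n1, n2, n3, n4, n5, n6, n7, n8, n9, n10, n11, n12, n13, n14, n15⟩ := V.ne
  rw [FUm]
  constructor
  · rintro ⟨y, hy, hlt⟩
    have hm : z ∈ dc y := mem_dc.2 (mem_uc.1 hy)
    have hl := lev_dc H hm
    have hne : e y ≠ 0 := by omega
    rcases V.out y hne with rfl | rfl | rfl | rfl | rfl | rfl | rfl
    · omega
    · rw [V.du, mem_insert, mem_singleton] at hm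
      rcases hm with rfl | rfl
      · rw [V.ex, V.eu] at hlt
        omega
      · rfl
    all_goals omega
  · rintro rfl
    refine ⟨u1, mem_uc.2 (mem_dc.1 (by rw [V.du]; simp)), ?_⟩
    rw [V.e_site H b7 (Ne.symm n6), V.eu]
    norm_num

/-- the elements of the lower side with a guard -/
lemma GU_iff {z : P} (hz : i < lev z) (hw : z ≠ w3) (hw' : z ≠ w4) : GU e z ↔ z ≠ E2 := by
  obtain ⟨b1, b2, b3, b4, b5, b6, b7, b8, b9⟩ := V.lev_all H
  have h3 := V.lu
  have h1 := V.l1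
  rw [GUm]
  constructor
  · rintro ⟨y, hy, hle⟩ rfl
    rw [V.uE2, mem_insert, mem_singleton] at hy
    rcases hy with rfl | rfl
    · rw [V.eE2, V.e3] at hle
      omega
    · rw [V.eE2, V.e4] at hle
      omega
  · intro hne
    by_cases h0 : e z = 0
    · obtain ⟨y, hy⟩ := uc_nonempty H (x := z) (by omega)
      exact ⟨y, hy, by omega⟩
    · rcases V.out z h0 with rfl | rfl | rfl | rfl | rfl | rfl | rfl
      · refine ⟨x1, by rw [V.uy]; simp, ?_⟩
        rw [V.ey, V.ex]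
      · omega
      · omega
      · exact absurd rfl hw
      · exact absurd rfl hw'
      · refine ⟨w3, by rw [V.uE1]; simp, ?_⟩
        rw [V.eE1, V.e3]
      · exact absurd rfl hne

lemma AL_eq : AL i e = {x0, x3, x4, x5} := by
  classical
  obtain ⟨b1, b2, b3, b4, b5, b6, b7, b8, b9⟩ := V.lev_all H
  ext z
  rw [NormD_mem_AL]
  simp only [mem_insert, mem_singleton]
  constructor
  · rintro ⟨hz, h⟩
    rw [V.FD_iff H hz.ge] at h
    rcases h with h | h | h | h | rfl | rfl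
    · exact Or.inl h
    · exact Or.inr (Or.inl h)
    · exact Or.inr (Or.inr (Or.inl h))
    · exact Or.inr (Or.inr (Or.inr h))
    · omega
    · omega
  · intro h
    have hz : lev z = i := by
      rcases h with rfl | rfl | rfl | rfl
      · exact b6
      · exact b8
      · exact V.l4
      · exact b9
    refine ⟨hz, (V.FD_iff H hz.ge).2 ?_⟩
    tauto

lemma AU_eq : AU i e = {x2} := by
  classical
  obtain ⟨b1, b2, b3, b4, b5, b6, b7, b8, b9⟩ := V.lev_all H
  ext z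
  rw [NormD_mem_AU, mem_singleton]
  constructor
  · rintro ⟨hz, h⟩
    exact (V.FU_iff H hz.le).1 h
  · rintro rfl
    exact ⟨b7, (V.FU_iff H b7.le).2 rfl⟩

lemma aL_eq : aL i e = 2 := by
  classical
  obtain ⟨b1, b2, b3, b4, b5, b6, b7, b8, b9⟩ := V.lev_all H
  have h4 := V.l4
  unfold aL
  rw [show (univ.filter (fun z : P => i < lev z ∧ FD e z)) = {w3, w4} from ?_, card_pair V.ww]
  ext z
  rw [mem_filter, mem_insert, mem_singleton]
  constructor
  · rintro ⟨-, hz, h⟩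
    rw [V.FD_iff H hz.le] at h
    rcases h with rfl | rfl | rfl | rfl | h | h
    · omega
    · omega
    · omega
    · omega
    · exact Or.inl h
    · exact Or.inr h
  · rintro (rfl | rfl)
    · exact ⟨mem_univ _, by omega, (V.FD_iff H (by omega)).2 (by tauto)⟩
    · exact ⟨mem_univ _, by omega, (V.FD_iff H (by omega)).2 (by tauto)⟩

lemma pL_eq : pL i e = 1 := by
  classical
  obtain ⟨b1, b2, b3, b4, b5, b6, b7, b8, b9⟩ := V.lev_all H
  have h4 := V.l4
  unfold pL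
  rw [show (univ.filter (fun z : P => i < lev z ∧ ¬ FD e z ∧ ¬ GU e z)) = {E2} from ?_,
    card_singleton]
  ext z
  rw [mem_filter, mem_singleton]
  constructor
  · rintro ⟨-, hz, h, h'⟩
    by_contra hne
    have k3 : z ≠ w3 := by
      rintro rfl
      exact h ((V.FD_iff H (by omega)).2 (by tauto))
    have k4 : z ≠ w4 := by
      rintro rfl
      exact h ((V.FD_iff H (by omega)).2 (by tauto))
    exact h' ((V.GU_iff H hz k3 k4).2 hne)
  · rintro rfl
    have k3 : z ≠ w3 := by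
      rintro rfl
      omega
    have k4 : z ≠ w4 := by
      rintro rfl
      omega
    refine ⟨mem_univ _, by omega, ?_, ?_⟩
    · rw [V.FD_iff H (by omega)]
      rintro (rfl | rfl | rfl | rfl | rfl | rfl) <;> omega
    · rw [V.GU_iff H (by omega) k3 k4]
      exact fun h => h rfl

lemma aU_eq : aU i e = 0 := by
  classical
  obtain ⟨b1, b2, b3, b4, b5, b6, b7, b8, b9⟩ := V.lev_all H
  unfold aU
  rw [card_eq_zero, filter_eq_empty_iff]
  rintro z - ⟨hz, h⟩
  rw [V.FU_iff H hz.le] at h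
  rw [h] at hz
  omega

lemma pU_eq (hir : i ≤ r) : pU i e = 0 := by
  classical
  obtain ⟨b1, b2, b3, b4, b5, b6, b7, b8, b9⟩ := V.lev_all H
  unfold pU
  rw [card_eq_zero, filter_eq_empty_iff]
  rintro z - ⟨hz, h, h'⟩
  apply h'
  rw [GDm]
  by_cases h0 : e z = 0
  · obtain ⟨y, hy⟩ := dc_nonempty H (x := z) (by omega)
    exact ⟨y, hy, by omega⟩
  · have h1 := V.l1
    rcases V.out z h0 with rfl | rfl | rfl | rfl | rfl | rfl | rfl
    · omega
    · refine ⟨x1, by rw [V.du]; simp, ?_⟩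
      rw [V.eu, V.ex]
    all_goals omega

lemma admL : AdmL i e := by
  intro z hz h
  have h1 := (V.FD_iff H hz.le).1 h.1
  obtain ⟨b1, b2, b3, b4, b5, b6, b7, b8, b9⟩ := V.lev_all H
  have h4 := V.l4
  obtain ⟨n1, n2, n3, n4, n5, n6, n7, n8, n9, n10, n11, n12, n13, n14, n15⟩ := V.ne
  have h2 := h.2
  rw [GUm] at h2
  obtain ⟨y, hy, hle⟩ := h2
  rcases h1 with rfl | rfl | rfl | rfl | rfl | rfl
  · omega
  · omega
  · omega
  · omega
  · rw [V.uw3, mem_insert, mem_singleton] at hy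
    rw [V.e3] at hle
    rcases hy with rfl | rfl
    · rw [V.e_site H b8 (Ne.symm n7)] at hle
      omega
    · rw [V.e_site H h4 (Ne.symm n8)] at hle
      omega
  · rw [V.uw4, mem_insert, mem_singleton] at hy
    rw [V.e4] at hle
    rcases hy with rfl | rfl
    · rw [V.e_site H h4 (Ne.symm n8)] at hle
      omega
    · rw [V.e_site H b9 (Ne.symm n9)] at hle
      omega

lemma admU : AdmU i e := by
  intro z hz h
  have h1 := (V.FU_iff H hz.le).1 h.1
  obtain ⟨b1, b2, b3, b4, b5, b6, b7, b8, b9⟩ := V.lev_all H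
  rw [h1] at hz
  omega

lemma disj : Disjoint (AL i e) (AU i e) := by
  obtain ⟨n1, n2, n3, n4, n5, n6, n7, n8, n9, n10, n11, n12, n13, n14, n15⟩ := V.ne
  rw [V.AL_eq H, V.AU_eq H, disjoint_singleton_right]
  simp only [mem_insert, mem_singleton, not_or]
  exact ⟨n2.symm, n10, n11, n12⟩

/-- THE VALUE of the configuration -/
theorem value (hir : i ≤ r) (hC : Part i C) (hs : Spt C e) (hb : (st i C).card = 6) :
    dd ^ 2 ∣ tC i C e ∧ PowerSeries.coeff 2 (tC i C e : A) = 1 := by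
  classical
  obtain ⟨n1, n2, n3, n4, n5, n6, n7, n8, n9, n10, n11, n12, n13, n14, n15⟩ := V.ne
  have hAL : (AL i e).card = 4 := by
    rw [V.AL_eq H, card_insert_of_notMem (by simp [n3, n4, n5]),
      card_insert_of_notMem (by simp [n13, n14]), card_pair n15]
  have hAU : (AU i e).card = 1 := by
    rw [V.AU_eq H, card_singleton]
  have h1 : tC i C e = dd ^ 2 * xx ^ 6 := by
    unfold tC
    rw [if_pos (V.disj H)]
    unfold cw
    rw [if_pos ⟨V.admL H, V.admU H⟩, hb, hAL, hAU, V.aL_eq H, V.aU_eq H, V.pL_eq H, V.pU_eq H hir]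
    ring
  refine ⟨⟨_, h1⟩, ?_⟩
  rw [h1]
  unfold dd
  rw [PowerSeries.coeff_X_pow_mul', if_pos le_rfl, Nat.sub_self,
    PowerSeries.coeff_zero_eq_constantCoeff, map_pow, Win.cc_xx]
  norm_num

end VC

end Pool.Agent.GaussPoset.Win.Kd
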