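import Pool.Agent.W_448ut_h16.XcB
import Pool.Agent.W_448kd_h10.KdA
import Pool.Agent.W_448i2_h61.IA

/-!
MP_448cb3_co, G2, case B, block (K), part P2: the right block.  helper44.

One side of a window, abstract: `c z` are the covers of `z` towards the window, `c' z` those away from
it. An element `th` at distance two over the two near elements `y`, `y2` with the common site `s`; all
three are excited, the energy of the region `R` is at most five and `R` contains at most one sink.
-/

namespace Pool.Agent.GaussPoset.Win.Kd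

set_option linter.unusedSectionVars false

open Finset
open Pool.Agent.GaussPoset.Win.I2 (kd gu)

universe u

section abstractBlock

variable {P : Type u} [DecidableEq P]
variable {c c' : P → Finset P} {t : P → ℤ} {e : P → ℕ} {R : Finset P} {th y y2 p s q : P}

/-- a sink of one side, sites included -/
def snk (c c' : P → Finset P) (t : P → ℤ) (e : P → ℕ) (z : P) : Prop :=
  (t z = 0 ∧ ¬ kd c' e z ∧ ¬ kd c e z) ∨ (0 < t z ∧ ¬ kd c' e z ∧ ¬ gu c e z)

/-- the right block -/
structure RB (c c' : P → Finset P) (t : P → ℤ) (e : P → ℕ) (R : Finset P)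
    (th y y2 p s q : P) : Prop where
  dual : ∀ z x, x ∈ c z ↔ z ∈ c' x
  lv : ∀ z x, x ∈ c z → t x + 1 = t z
  ts : t s = 0
  cth : c th = {y, y2}
  cy : c y = {p, s}
  cy2 : c y2 = {s, q}
  cs : c' s = {y, y2}
  hy : y ≠ y2
  ps : p ≠ s
  sq : s ≠ q
  pq : p ≠ q
  mth : th ∈ R
  my : y ∈ R
  my2 : y2 ∈ R
  mp : p ∈ R
  ms : s ∈ R
  mq : q ∈ R
  e1 : 1 ≤ e th
  e2 : 1 ≤ e y
  e3 : 1 ≤ e y2
  sum : ∑ z ∈ R, e z ≤ 5
  both : ∀ v, v = p ∨ v = s ∨ v = q → ¬ (kd c' e v ∧ kd c e v)
  adm : ∀ z, z = y ∨ z = y2 → ¬ (kd c' e z ∧ gu c e z)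
  cp : ∀ z ∈ c' p, z ≠ y → e z = 0
  cq : ∀ z ∈ c' q, z ≠ y2 → e z = 0
  up : ∀ u ∈ c p, u ∈ c s ∨ e u = 0
  uq : ∀ u ∈ c q, u ∈ c s ∨ e u = 0
  us : ∀ u ∈ c s, u ∈ R ∧ (c' u = {p, s} ∨ c' u = {s, q})
  dR : ∀ d, d ∈ c' y ∪ c' y2 → d ∈ R ∧ c d ⊆ R ∧ c' d ⊆ R ∧ (c d).card ≤ 2
  one : ∀ z ∈ R, ∀ z' ∈ R, snk c c' t e z → snk c c' t e z' → z = z'

namespace RB

variable (B : RB c c' t e R th y y2 p s q)

include B

lemma symm : RB c c' t e R th y2 y q s p where
  dual := B.dual
  lv := B.lv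
  ts := B.ts
  cth := by rw [B.cth, pair_comm]
  cy := by rw [B.cy2, pair_comm]
  cy2 := by rw [B.cy, pair_comm]
  cs := by rw [B.cs, pair_comm]
  hy := B.hy.symm
  ps := B.sq.symm
  sq := B.ps.symm
  pq := B.pq.symm
  mth := B.mth
  my := B.my2
  my2 := B.my
  mp := B.mq
  ms := B.ms
  mq := B.mp
  e1 := B.e1
  e2 := B.e3
  e3 := B.e2
  sum := B.sum
  both := fun v hv => B.both v (by tauto)
  adm := fun z hz => B.adm z (by tauto)
  cp := B.cq
  cq := B.cp
  up := B.uq
  uq := B.up
  us := fun u hu => ⟨(B.us u hu).1, by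
    rcases (B.us u hu).2 with h | h
    · exact Or.inr (by rw [h, pair_comm])
    · exact Or.inl (by rw [h, pair_comm])⟩
  dR := fun d hd => B.dR d (by rwa [union_comm] at hd)
  one := B.one

lemma ty : t y = 1 := by
  have := B.lv y s (by rw [B.cy]; simp)
  have := B.ts
  omega

lemma tp : t p = 0 := by
  have := B.lv y p (by rw [B.cy]; simp)
  have := B.ty
  omega

lemma ty2 : t y2 = 1 := B.symm.ty

lemma tq : t q = 0 := B.symm.tp

lemma tth : t th = 2 := by
  have := B.lv th y (by rw [B.cth]; simp)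
  have := B.ty
  omega

lemma tu {u : P} (hu : u ∈ c s) : t u = -1 := by
  have := B.lv s u hu
  have := B.ts
  omega

lemma td {d : P} (hd : d ∈ c' y ∪ c' y2) : t d = 2 := by
  rw [mem_union] at hd
  rcases hd with hd | hd
  · have := B.lv d y ((B.dual d y).2 hd)
    have := B.ty
    omega
  · have := B.lv d y2 ((B.dual d y2).2 hd)
    have := B.ty2
    omega

lemma nty : th ≠ y := fun h => by
  have h1 := B.tth
  have h2 := B.ty
  rw [h] at h1
  omega

lemma nty2 : th ≠ y2 := B.symm.nty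

lemma S3 : e th + e y + e y2 ≤ ∑ z ∈ R, e z := by
  have h1 : ∑ z ∈ ({th, y, y2} : Finset P), e z ≤ ∑ z ∈ R, e z := by
    refine sum_le_sum_of_subset ?_
    intro x hx
    simp only [mem_insert, mem_singleton] at hx
    rcases hx with rfl | rfl | rfl
    · exact B.mth
    · exact B.my
    · exact B.my2
  rw [sum_insert (by simp [B.nty, B.nty2]), sum_insert (by simp [B.hy]), sum_singleton] at h1
  omega

lemma S4 {z : P} (hz : z ∈ R) (h1 : z ≠ th) (h2 : z ≠ y) (h3 : z ≠ y2) :
    e th + e y + e y2 + e z ≤ 5 := by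
  have h4 : ∑ z ∈ ({z, th, y, y2} : Finset P), e z ≤ ∑ z ∈ R, e z := by
    refine sum_le_sum_of_subset ?_
    intro x hx
    simp only [mem_insert, mem_singleton] at hx
    rcases hx with rfl | rfl | rfl | rfl
    · exact hz
    · exact B.mth
    · exact B.my
    · exact B.my2
  rw [sum_insert (by simp [h1, h2, h3]), sum_insert (by simp [B.nty, B.nty2]),
    sum_insert (by simp [B.hy]), sum_singleton] at h4
  have := B.sum
  omega

lemma S5 {z z' : P} (hz : z ∈ R) (h1 : z ≠ th) (h2 : z ≠ y) (h3 : z ≠ y2) (hz' : z' ∈ R)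
    (h1' : z' ≠ th) (h2' : z' ≠ y) (h3' : z' ≠ y2) (hn : z ≠ z') :
    e th + e y + e y2 + e z + e z' ≤ 5 := by
  have h4 : ∑ z ∈ ({z', z, th, y, y2} : Finset P), e z ≤ ∑ z ∈ R, e z := by
    refine sum_le_sum_of_subset ?_
    intro x hx
    simp only [mem_insert, mem_singleton] at hx
    rcases hx with rfl | rfl | rfl | rfl | rfl
    · exact hz'
    · exact hz
    · exact B.mth
    · exact B.my
    · exact B.my2
  rw [sum_insert (by simp [h1', h2', h3', Ne.symm hn]), sum_insert (by simp [h1, h2, h3]),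
    sum_insert (by simp [B.nty, B.nty2]), sum_insert (by simp [B.hy]), sum_singleton] at h4
  have := B.sum
  omega

/-- elements with another level -/
lemma ne_of {z x : P} (h : t z ≠ t x) : z ≠ x := fun h' => h (by rw [h'])

lemma nsite {z : P} (h : t z ≤ 0) : z ≠ th ∧ z ≠ y ∧ z ≠ y2 := by
  have h1 := B.tth
  have h2 := B.ty
  have h3 := B.ty2
  refine ⟨B.ne_of (by omega), B.ne_of (by omega), B.ne_of (by omega)⟩

lemma S4s {z : P} (hz : z ∈ R) (h : t z ≤ 0) : e th + e y + e y2 + e z ≤ 5 := by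
  obtain ⟨h1, h2, h3⟩ := B.nsite h
  exact B.S4 hz h1 h2 h3

lemma S5s {z z' : P} (hz : z ∈ R) (h : t z ≤ 0) (hz' : z' ∈ R) (h' : t z' ≤ 0) (hn : z ≠ z') :
    e th + e y + e y2 + e z + e z' ≤ 5 := by
  obtain ⟨h1, h2, h3⟩ := B.nsite h
  obtain ⟨h4, h5, h6⟩ := B.nsite h'
  exact B.S5 hz h1 h2 h3 hz' h4 h5 h6 hn

lemma ypc : y ∈ c' p := (B.dual y p).1 (by rw [B.cy]; simp)

lemma y2qc : y2 ∈ c' q := (B.dual y2 q).1 (by rw [B.cy2]; simp)

lemma thy : th ∈ c' y := (B.dual th y).1 (by rw [B.cth]; simp)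

lemma thy2 : th ∈ c' y2 := (B.dual th y2).1 (by rw [B.cth]; simp)

/-- the label of an upper element next to an excited site -/
lemma u_le {v u : P} (hv : v = p ∨ v = s ∨ v = q) (ev : 1 ≤ e v) (hu : u ∈ c v) : e u ≤ 1 := by
  have h1 : u ∈ c s ∨ e u = 0 := by
    rcases hv with rfl | rfl | rfl
    · exact B.up u hu
    · exact Or.inl hu
    · exact B.uq u hu
  rcases h1 with h1 | h1
  · have h2 := (B.us u h1).1
    have h3 := B.tu h1
    have hvR : v ∈ R ∧ t v = 0 := by
      rcases hv with rfl | rfl | rfl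
      · exact ⟨B.mp, B.tp⟩
      · exact ⟨B.ms, B.ts⟩
      · exact ⟨B.mq, B.tq⟩
    have h4 := B.S5s hvR.1 (by omega) h2 (by omega) (B.ne_of (by omega))
    have := B.e1
    have := B.e2
    have := B.e3
    omega
  · omega

/-- an excited site which is not killed from this side is a sink -/
lemma site_snk {v : P} (hv : v = p ∨ v = s ∨ v = q) (ev : 1 ≤ e v) (h : ¬ kd c' e v) :
    snk c c' t e v := by
  refine Or.inl ⟨?_, h, ?_⟩
  · rcases hv with rfl | rfl | rfl
    · exact B.tp
    · exact B.ts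
    · exact B.tq
  · rintro ⟨u, hu, hlt⟩
    have := B.u_le hv ev hu
    omega

/-- the left site is not labelled -/
lemma p0 : e p = 0 := by
  by_contra hp
  have ep : 1 ≤ e p := by omega
  have h1 := B.e1
  have h2 := B.e2
  have h3 := B.e3
  have h4 := B.S4s B.mp (by rw [B.tp])
  have es := B.S5s B.mp (by rw [B.tp]) B.ms (by rw [B.ts]) B.ps
  have eq := B.S5s B.mp (by rw [B.tp]) B.mq (by rw [B.tq]) B.pq
  -- other children of y2 and y
  have hd : ∀ d ∈ c' y ∪ c' y2, d ≠ th → e d ≤ 1 := by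
    intro d hd hne
    have h5 := B.dR d hd
    have h6 := B.td hd
    have h7 := B.ty
    have h8 := B.ty2
    have h9 := B.tp
    obtain ⟨n1, n2, n3⟩ := B.nsite (z := p) (by omega)
    have := B.S5 B.mp n1 n2 n3 h5.1 hne (B.ne_of (by omega)) (B.ne_of (by omega))
      (B.ne_of (by omega))
    omega
  by_cases hk : kd c' e p
  · -- then e y = 2 and all other labels are one
    obtain ⟨z, hz, hlt⟩ := hk
    have hzy : z = y := by
      by_contra hne
      have := B.cp z hz hne
      omega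
    subst hzy
    have sy : snk c c' t e z := by
      refine Or.inr ⟨by rw [B.ty]; norm_num, ?_, ?_⟩
      · rintro ⟨d, hd', hlt'⟩
        by_cases hdt : d = th
        · subst hdt
          omega
        · have := hd d (mem_union_left _ hd') hdt
          omega
      · rintro ⟨a, ha, hle⟩
        rw [B.cy, mem_insert, mem_singleton] at ha
        rcases ha with rfl | rfl <;> omega
    have sy2 : snk c c' t e y2 := by
      refine Or.inr ⟨by rw [B.ty2]; norm_num, ?_, ?_⟩
      · rintro ⟨d, hd', hlt'⟩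
        by_cases hdt : d = th
        · subst hdt
          omega
        · have := hd d (mem_union_right _ hd') hdt
          omega
      · rintro ⟨a, ha, hle⟩
        rw [B.cy2, mem_insert, mem_singleton] at ha
        rcases ha with rfl | rfl <;> omega
    exact B.hy (B.one z B.my y2 B.my2 sy sy2)
  · have sp := B.site_snk (Or.inl rfl) ep hk
    have ny2 : ¬ snk c c' t e y2 := fun h => by
      have := B.one p B.mp y2 B.my2 sp h
      exact (B.ne_of (by rw [B.tp, B.ty2]; norm_num) : p ≠ y2) this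
    apply ny2
    refine Or.inr ⟨by rw [B.ty2]; norm_num, ?_, ?_⟩
    · rintro ⟨d, hd', hlt'⟩
      by_cases hdt : d = th
      · subst hdt
        refine B.adm y (Or.inl rfl) ⟨⟨d, B.thy, by omega⟩, p, by rw [B.cy]; simp, by omega⟩
      · have := hd d (mem_union_right _ hd') hdt
        omega
    · rintro ⟨a, ha, hle⟩
      rw [B.cy2, mem_insert, mem_singleton] at ha
      rcases ha with rfl | rfl
      · refine B.ps (B.one p B.mp a B.ms sp (B.site_snk (Or.inr (Or.inl rfl)) (by omega) ?_))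
        rintro ⟨z, hz, hlt⟩
        rw [B.cs, mem_insert, mem_singleton] at hz
        rcases hz with rfl | rfl <;> omega
      · refine B.pq (B.one p B.mp a B.mq sp (B.site_snk (Or.inr (Or.inr rfl)) (by omega) ?_))
        rintro ⟨z, hz, hlt⟩
        by_cases hzy : z = y2
        · subst hzy
          omega
        · have := B.cq z hz hzy
          omega

lemma q0 : e q = 0 := B.symm.p0

/-- the upper elements are not excited -/
lemma u0 {u : P} (hu : u ∈ c s) : e u = 0 := by
  by_contra hne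
  have h1 := B.p0
  have h2 := B.q0
  have h3 := B.e2
  have h4 := B.e3
  rcases (B.us u hu).2 with h | h
  · exact B.both p (Or.inl rfl) ⟨⟨y, B.ypc, by omega⟩, u, (B.dual p u).2 (by rw [h]; simp), by omega⟩
  · exact B.both q (Or.inr (Or.inr rfl))
      ⟨⟨y2, B.y2qc, by omega⟩, u, (B.dual q u).2 (by rw [h]; simp), by omega⟩

end RB

end abstractBlock

end Pool.Agent.GaussPoset.Win.Kd
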